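import Mathlib
import Pool.Agent.R120.DDDef
import Pool.Agent.R120.DDFinal

set_option autoImplicit false

namespace Pool.Agent.Results.MP_ff54ac_co.RatioLimit

open Pool.Agent.R120.DDDef Filter Topology

/-- For finite sets `I, J` of integers `≥ 2` such that `dd(I;n)` and `dd(J;n)` are positive for all
large `n`, the ratio `dd(I;n) / dd(J;n)` converges to a positive real number. -/
theorem result : ∀ I J : Finset ℕ, (∀ i ∈ I, 2 ≤ i) → (∀ j ∈ J, 2 ≤ j) →
    (∀ᶠ n in atTop, 0 < dd I n) → (∀ᶠ n in atTop, 0 < dd J n) →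
    ∃ c : ℝ, 0 < c ∧ Tendsto (fun n : ℕ => (dd I n : ℝ) / (dd J n : ℝ)) atTop (𝓝 c) := by
  intro I J _ _ hI hJ
  obtain ⟨n₁, h1⟩ := hI.exists
  obtain ⟨n₂, h2⟩ := hJ.exists
  exact Pool.Agent.R120.DDCount.main I J n₁ n₂ h1 h2

end Pool.Agent.Results.MP_ff54ac_co.RatioLimit
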